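import Pool.Agent.H70.GSC.Targets

/-! # SPL: separated frequencies -/

set_option autoImplicit false

open Finset Pool.Agent.H6.N4D Pool.Agent.H93 Pool.Agent.H93.GS

namespace Pool.Agent.H97.GSC

open Pool.Agent.H70.GSC

theorem pf_SPL : T_SPL := by
  classical
  intro k c b r γ N q d Λ hN hq hd hdΛ hsep
  have hN0 : (0 : ℝ) < N := by exact_mod_cast hN
  have hq0 : (0 : ℝ) < q := by exact_mod_cast hq
  -- two different indices are not near the same point
  have huniq : ∀ j < k, ∀ l < k, ∀ i, nd (b j - γ i) ≤ d / N → nd (b l - γ i) ≤ d / N → j = l := by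
    intro j hj l hl i h1 h2
    by_contra hne
    have h3 := hsep j hj l hl hne
    have h4 : nd (b j - b l) ≤ 2 * d / N := by
      have h5 := nd_tri (b j) (γ i) (b l)
      rw [nd_sub_comm (γ i) (b l)] at h5
      have h6 : 2 * d / N = d / N + d / N := by ring
      linarith
    have h5 : nd (q * (b j - b l)) ≤ q * (2 * d / N) :=
      (nd_nat_mul_le q _).trans (mul_le_mul_of_nonneg_left h4 hq0.le)
    have h6 : (q : ℝ) * (2 * d / N) < Λ * q / N := by
      rw [mul_div_assoc', div_lt_div_iff_of_pos_right hN0]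
      nlinarith
    linarith
  set S : Finset ℕ := (range k).filter (fun j => ∀ i < r, d / N < nd (b j - γ i)) with hS
  set T : Finset ℕ := (range k).filter (fun j => ¬ ∀ i < r, d / N < nd (b j - γ i)) with hT
  have hex : ∀ j ∈ T, ∃ i, i < r ∧ nd (b j - γ i) ≤ d / N := by
    intro j hj
    rw [hT, mem_filter] at hj
    have h1 := hj.2
    push Not at h1
    exact h1
  have hι : ∃ ι : ℕ → ℕ, ∀ j ∈ T, ι j < r ∧ nd (b j - γ (ι j)) ≤ d / N := by
    choose! ι h using hex
    exact ⟨ι, h⟩
  obtain ⟨ι, hι⟩ := hι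
  have hinj : ∀ j ∈ T, ∀ l ∈ T, ι j = ι l → j = l := by
    intro j hj l hl h
    have h1 := hι j hj
    have h2 := hι l hl
    rw [← h] at h2
    have hjk : j < k := mem_range.1 (mem_filter.1 hj).1
    have hlk : l < k := mem_range.1 (mem_filter.1 hl).1
    exact huniq j hjk l hlk (ι j) h1.2 h2.2
  -- the index with a given value
  have hJ : ∀ i : ℕ, ∃ j : ℕ, (∃ l ∈ T, ι l = i) → j ∈ T ∧ ι j = i := by
    intro i
    by_cases h : ∃ l ∈ T, ι l = i
    · obtain ⟨l, h1, h2⟩ := h
      exact ⟨l, fun _ => ⟨h1, h2⟩⟩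
    · exact ⟨0, fun h' => absurd h' h⟩
  choose J hJ using hJ
  have hsum : ∀ (M : Type) [AddCommMonoid M] (f g : ℕ → M),
      (∀ i, (∃ l ∈ T, ι l = i) → g i = f (J i)) → (∀ i, ¬ (∃ l ∈ T, ι l = i) → g i = 0) →
      ∑ j ∈ range k, f j = ∑ j ∈ S, f j + ∑ i ∈ range r, g i := by
    intro M _ f g h1 h2
    have h3 : ∑ j ∈ T, f j = ∑ i ∈ range r, g i := by
      rw [← Finset.sum_fiberwise_of_maps_to (s := T) (t := range r) (g := ι) (f := f)
        (fun j hj => mem_range.2 (hι j hj).1)]
      refine Finset.sum_congr rfl fun i _ => ?_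
      by_cases h : ∃ l ∈ T, ι l = i
      · have h4 : T.filter (fun j => ι j = i) = {J i} := by
          ext j
          rw [mem_filter, mem_singleton]
          constructor
          · rintro ⟨h5, h6⟩
            exact hinj j h5 (J i) (hJ i h).1 (h6.trans (hJ i h).2.symm)
          · rintro rfl
            exact hJ i h
        rw [h4, Finset.sum_singleton, h1 i h]
      · have h4 : T.filter (fun j => ι j = i) = ∅ := by
          rw [Finset.filter_eq_empty_iff]
          intro j hj h5
          exact h ⟨j, hj, h5⟩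
        rw [h4, Finset.sum_empty, h2 i h]
    rw [← h3, hS, hT, Finset.sum_filter_add_sum_filter_not]
  refine ⟨S, fun i => if (∃ l ∈ T, ι l = i) then c (J i) else 0,
    fun i => if (∃ l ∈ T, ι l = i) then N * sr (b (J i) - γ i) else 0, filter_subset _ _,
    fun j hj => (mem_filter.1 hj).2, fun i _ => ?_, fun m => ?_, ?_, fun j hj i _ hC => ?_⟩
  · show |(if (∃ l ∈ T, ι l = i) then (N : ℝ) * sr (b (J i) - γ i) else 0)| ≤ d
    by_cases h : ∃ l ∈ T, ι l = i
    · rw [if_pos h, abs_mul, abs_sr, abs_of_pos hN0]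
      have h1 := (hι (J i) (hJ i h).1).2
      rw [(hJ i h).2] at h1
      rw [le_div_iff₀ hN0] at h1
      linarith
    · rw [if_neg h, abs_zero]
      exact hd
  · unfold sg
    refine hsum ℂ (fun j => c j * ee (b j * m)) _ (fun i h => ?_) (fun i h => ?_)
    · show (if (∃ l ∈ T, ι l = i) then c (J i) else 0) * ee ((γ i +
        (if (∃ l ∈ T, ι l = i) then (N : ℝ) * sr (b (J i) - γ i) else 0) / N) * m) =
          c (J i) * ee (b (J i) * m)
      rw [if_pos h, if_pos h, mul_div_cancel_left₀ _ hN0.ne']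
      congr 1
      have h1 : (γ i + sr (b (J i) - γ i)) * m = b (J i) * m + ((-(round (b (J i) - γ i)) * m : ℤ)
          : ℝ) := by
        unfold sr
        push_cast
        ring
      rw [h1, ee_add, ee_int, mul_one]
    · show (if (∃ l ∈ T, ι l = i) then c (J i) else 0) * _ = 0
      rw [if_neg h, zero_mul]
  · refine le_of_eq (hsum ℝ (fun j => ‖c j‖) _ (fun i h => ?_) (fun i h => ?_)).symm
    · show ‖(if (∃ l ∈ T, ι l = i) then c (J i) else 0)‖ = ‖c (J i)‖
      rw [if_pos h]
    · show ‖(if (∃ l ∈ T, ι l = i) then c (J i) else 0)‖ = 0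
      rw [if_neg h, norm_zero]
  · have h : ∃ l ∈ T, ι l = i := by
      by_contra h
      exact hC (if_neg h)
    show Λ * q / N ≤ nd (q * (b j - (γ i +
      (if (∃ l ∈ T, ι l = i) then (N : ℝ) * sr (b (J i) - γ i) else 0) / N)))
    rw [if_pos h, mul_div_cancel_left₀ _ hN0.ne']
    have hJT := (hJ i h).1
    have hjk : j < k := mem_range.1 (mem_filter.1 hj).1
    have hJk : J i < k := mem_range.1 (mem_filter.1 hJT).1
    have hne : j ≠ J i := by
      rintro rfl
      exact (mem_filter.1 hJT).2 (mem_filter.1 hj).2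
    have h1 := hsep j hjk (J i) hJk hne
    have h2 : (q : ℝ) * (b j - (γ i + sr (b (J i) - γ i))) = q * (b j - b (J i)) +
        ((q * round (b (J i) - γ i) : ℤ) : ℝ) := by
      unfold sr
      push_cast
      ring
    rwa [h2, nd_add_int]

end Pool.Agent.H97.GSC
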